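import Pool.Agent.X270.OCay4

set_option autoImplicit false

/-!
Jaeger's oriented cycle double cover conjecture for Cayley graphs, and more generally for graphs
with a vertex-transitive group of automorphisms in which only the identity fixes an arc.
-/

namespace Pool.Agent.Results.MP_781dd6_co.CayleyGraphs

open Finset Pool.Agent.TH505.OCDC Pool.Agent.X270.OCay

variable {V : Type} [Fintype V] {G : SimpleGraph V}

/-- one orbit of arcs when vertex stabilisers are not trivial -/
lemma orbit_cov (Γ : Subgroup (G ≃g G)) (htr : ∀ u v, ∃ g ∈ Γ, g u = v)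
    (hfree : ∀ g ∈ Γ, ∀ u v, G.Adj u v → g u = u → g v = v → g = 1) (x w : V)
    (hxw : G.Adj x w) (h : G ≃g G) (hh : h ∈ Γ) (hhx : h x = x) (hh1 : h ≠ 1) :
    Cov G (fun u v => ∃ g : Γ, (g.1 x, g.1 w) = (u, v)) := by
  classical
  have hk : ∃ k : Γ, k.1 x = w ∧ k.1 w ≠ x := by
    obtain ⟨k0, hk0, hk0x⟩ := htr x w
    by_cases hc : k0 w = x
    · refine ⟨⟨k0 * h, Γ.mul_mem hk0 hh⟩, ?_, ?_⟩
      · change k0 (h x) = w
        rw [hhx, hk0x]
      · change k0 (h w) ≠ x
        intro h2
        have h3 : h w = w := k0.injective (h2.trans hc.symm)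
        exact hh1 (hfree h hh x w hxw hhx h3)
    · exact ⟨⟨k0, hk0⟩, hk0x, hc⟩
  obtain ⟨k, hkx, hkw⟩ := hk
  have : Finite (G ≃g G) := Finite.of_injective (fun f : G ≃g G => (f : V → V))
    (fun f g h => RelIso.ext (fun x => congrFun h x))
  have : Fintype Γ := Fintype.ofFinite Γ
  refine cov_label (J := Γ) (Λ := Γ ⧸ Subgroup.zpowers k) (fun g => (g.1 x, g.1 w)) ?_
    (fun g => g * k) (fun g g' hg => mul_right_cancel hg) ?_ ?_ (fun g => (g : Γ ⧸ _)) ?_ ?_
  · intro g g' hg
    simp only [Prod.mk.injEq] at hg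
    have h1 : (g'.1⁻¹ * g.1) = 1 := by
      refine hfree _ (Γ.mul_mem (Γ.inv_mem g'.2) g.2) x w hxw ?_ ?_
      · change g'.1⁻¹ (g.1 x) = x
        rw [hg.1]
        exact RelIso.symm_apply_apply g'.1 x
      · change g'.1⁻¹ (g.1 w) = w
        rw [hg.2]
        exact RelIso.symm_apply_apply g'.1 w
    exact Subtype.ext (inv_mul_eq_one.1 h1).symm
  · intro g
    change g.1 (k.1 x) = g.1 w
    rw [hkx]
  · intro g
    exact g.1.map_adj_iff.2 hxw
  · intro g
    rw [eq_comm, QuotientGroup.eq, inv_mul_cancel_left]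
    exact Subgroup.mem_zpowers k
  · intro g g' hgg hL
    simp only [Prod.swap_prod_mk, Prod.mk.injEq] at hgg
    rw [QuotientGroup.eq] at hL
    obtain ⟨j, hj⟩ := hL
    have hcc : Commute (g⁻¹ * g') k := by
      have : Commute (k ^ j) k := (Commute.refl _).zpow_left j
      rwa [show k ^ j = g⁻¹ * g' from hj] at this
    have hbx : (g⁻¹ * g').1 x = w := by
      change g.1⁻¹ (g'.1 x) = w
      rw [hgg.1]
      exact RelIso.symm_apply_apply g.1 w
    have hbw : (g⁻¹ * g').1 w = x := by
      change g.1⁻¹ (g'.1 w) = x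
      rw [hgg.2]
      exact RelIso.symm_apply_apply g.1 x
    have h1 : (g⁻¹ * g').1 (k.1 x) = k.1 ((g⁻¹ * g').1 x) :=
      congrArg (fun f : Γ => f.1 x) hcc.eq
    rw [hkx, hbx, hbw] at h1
    exact hkw h1.symm

open scoped Classical in
/-- Every finite simple graph without cut edges having a vertex-transitive group of automorphisms
in which only the identity fixes an arc (for example every Cayley graph, and every graph with an
arc-regular group) has an oriented cycle double cover. -/
theorem result : ∀ (V : Type) [Fintype V] (G : SimpleGraph V),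
    (∀ u v : V, G.Adj u v → (G.deleteEdges {s(u, v)}).Reachable u v) →
    (∃ Γ : Subgroup (G ≃g G), (∀ u v, ∃ g ∈ Γ, g u = v) ∧
      ∀ g ∈ Γ, ∀ u v, G.Adj u v → g u = u → g v = v → g = 1) →
    ∃ C : List (Σ v : V, G.Walk v v), (∀ c ∈ C, c.2.IsCycle) ∧
      ∀ u v : V, G.Adj u v →
        (C.map (fun c =>
          (c.2.darts.filter (fun d => decide (d.toProd = (u, v)))).length)).sum = 1 := by
  intro V _ G hcut hΓ
  obtain ⟨Γ, htr, hfree⟩ := hΓ
  suffices hmain : Cov G G.Adj by
    obtain ⟨C, hC, hC2⟩ := hmain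
    refine ⟨C, hC, ?_⟩
    intro u v huv
    have h1 := hC2 u v
    rw [ind_pos huv] at h1
    exact h1
  by_cases hV : Nonempty V
  swap
  · exact cov_empty (fun u => absurd ⟨u⟩ hV)
  obtain ⟨v0⟩ := hV
  have : Finite (G ≃g G) := Finite.of_injective (fun f : G ≃g G => (f : V → V))
    (fun f g h => RelIso.ext (fun x => congrFun h x))
  have : Fintype Γ := Fintype.ofFinite Γ
  by_cases hst : ∀ g ∈ Γ, g v0 = v0 → g = 1
  · -- Cayley graphs
    have hbij : Function.Bijective (fun g : Γ => g.1 v0) := by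
      constructor
      · intro g g' hg
        have hg' : g.1 v0 = g'.1 v0 := hg
        have h1 : (g'.1⁻¹ * g.1) = 1 := by
          refine hst _ (Γ.mul_mem (Γ.inv_mem g'.2) g.2) ?_
          change g'.1⁻¹ (g.1 v0) = v0
          rw [hg']
          exact RelIso.symm_apply_apply g'.1 v0
        exact Subtype.ext (inv_mul_eq_one.1 h1).symm
      · intro v
        obtain ⟨g, hg, hgv⟩ := htr v0 v
        exact ⟨⟨g, hg⟩, hgv⟩
    let e : Γ ≃ V := Equiv.ofBijective _ hbij
    have he : ∀ g : Γ, e g = g.1 v0 := fun g => rfl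
    let T : Finset Γ := univ.filter (fun x : Γ => G.Adj v0 (x.1 v0))
    have hT : ∀ x : Γ, x ∈ T ↔ G.Adj v0 (x.1 v0) := fun x => by simp [T]
    have hcard : T.card ≠ 1 := by
      intro hc
      obtain ⟨x, hx⟩ := Finset.card_eq_one.1 hc
      have hxT : G.Adj v0 (x.1 v0) := (hT x).1 (by rw [hx]; exact Finset.mem_singleton_self x)
      obtain ⟨p⟩ := hcut v0 (x.1 v0) hxT
      have step : ∀ (K : SimpleGraph V) (a b : V), K.Walk a b → a ≠ b → ∃ w', K.Adj a w' := by
        intro K a b p hab
        cases p with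
        | nil => exact absurd rfl hab
        | cons h _ => exact ⟨_, h⟩
      obtain ⟨w', hw'⟩ := step _ _ _ p hxT.ne
      rw [SimpleGraph.deleteEdges_adj] at hw'
      obtain ⟨g, hg, hgv⟩ := htr v0 w'
      have hgT : (⟨g, hg⟩ : Γ) ∈ T := (hT _).2 (by change G.Adj v0 (g v0); rw [hgv]; exact hw'.1)
      rw [hx, Finset.mem_singleton] at hgT
      apply hw'.2
      rw [Set.mem_singleton_iff, ← hgT]
      change s(v0, w') = s(v0, g v0)
      rw [hgv]
    refine (covS_all (G := G) e T hcard ?_ ?_).congr ?_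
    · intro x hx g
      rw [he, he]
      change G.Adj (g.1 v0) (g.1 (x.1 v0))
      exact g.1.map_adj_iff.2 ((hT x).1 hx)
    · intro x hx
      rw [hT]
      have h1 := ((x⁻¹).1.map_adj_iff (v := v0) (w := x.1 v0)).2 ((hT x).1 hx)
      have h2 : (x⁻¹).1 (x.1 v0) = v0 := RelIso.symm_apply_apply x.1 v0
      rw [h2] at h1
      exact h1.symm
    · intro u v
      constructor
      · rintro ⟨x, hx, g, hg⟩
        rw [Prod.mk.injEq, he, he] at hg
        rw [← hg.1, ← hg.2]
        change G.Adj (g.1 v0) (g.1 (x.1 v0))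
        exact g.1.map_adj_iff.2 ((hT x).1 hx)
      · intro huv
        obtain ⟨g, hg⟩ := e.surjective u
        obtain ⟨h, hh⟩ := e.surjective v
        refine ⟨g⁻¹ * h, ?_, g, ?_⟩
        · rw [hT]
          have h1 := ((g⁻¹).1.map_adj_iff (v := u) (w := v)).2 huv
          rw [← hg, ← hh, he, he] at h1
          have h2 : (g⁻¹).1 (g.1 v0) = v0 := RelIso.symm_apply_apply g.1 v0
          rw [h2] at h1
          exact h1
        · rw [mul_inv_cancel_left, hg, hh]
  · -- nontrivial vertex stabilisers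
    push Not at hst
    obtain ⟨h0, hh0, hh0v, hh01⟩ := hst
    have hno : ∀ x, ∃ h ∈ Γ, h x = x ∧ h ≠ 1 := by
      intro x
      obtain ⟨c, hc, hcx⟩ := htr v0 x
      refine ⟨c * h0 * c⁻¹, Γ.mul_mem (Γ.mul_mem hc hh0) (Γ.inv_mem hc), ?_, ?_⟩
      · change c (h0 (c⁻¹ x)) = x
        have : c⁻¹ x = v0 := by rw [← hcx]; exact RelIso.symm_apply_apply c v0
        rw [this, hh0v, hcx]
      · intro h1
        apply hh01
        have h2 : c * h0 = c := by
          have := congrArg (fun z => z * c) h1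
          simpa using this
        exact mul_eq_left.1 h2
    let orb : V × V → Set (V × V) := fun p => {q | ∃ g : Γ, (g.1 p.1, g.1 p.2) = q}
    refine (cov_union_finset (G := G) ((univ.filter (fun p : V × V => G.Adj p.1 p.2)).image orb)
      (fun i u v => (u, v) ∈ i) ?_ ?_).congr ?_
    · intro i hi
      obtain ⟨p, hp, rfl⟩ := Finset.mem_image.1 hi
      rw [Finset.mem_filter] at hp
      obtain ⟨h, hh, hhx, hh1⟩ := hno p.1
      exact orbit_cov Γ htr hfree p.1 p.2 hp.2 h hh hhx hh1
    · have key : ∀ p q : V × V, q ∈ orb p → orb q = orb p := by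
        rintro p q ⟨g, rfl⟩
        ext r
        constructor
        · rintro ⟨h, rfl⟩
          exact ⟨h * g, rfl⟩
        · rintro ⟨h, rfl⟩
          refine ⟨h * g⁻¹, ?_⟩
          have h2 : ∀ z, (g⁻¹).1 (g.1 z) = z := fun z => RelIso.symm_apply_apply g.1 z
          change (h.1 ((g⁻¹).1 (g.1 p.1)), h.1 ((g⁻¹).1 (g.1 p.2))) = _
          rw [h2, h2]
      intro i hi j hj u v h1 h2
      obtain ⟨p, hp, rfl⟩ := Finset.mem_image.1 hi
      obtain ⟨q, hq, rfl⟩ := Finset.mem_image.1 hj
      rw [← key p (u, v) h1, ← key q (u, v) h2]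
    · intro u v
      constructor
      · rintro ⟨i, hi, huv⟩
        obtain ⟨p, hp, rfl⟩ := Finset.mem_image.1 hi
        rw [Finset.mem_filter] at hp
        obtain ⟨g, hg⟩ := huv
        rw [Prod.mk.injEq] at hg
        rw [← hg.1, ← hg.2]
        exact g.1.map_adj_iff.2 hp.2
      · intro huv
        refine ⟨orb (u, v), Finset.mem_image_of_mem _ (Finset.mem_filter.2 ⟨mem_univ _, huv⟩),
          1, rfl⟩

end Pool.Agent.Results.MP_781dd6_co.CayleyGraphs
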