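import Pool.Agent.X42.FewOCDC

/-!
Orientable five cycle double covers of bridgeless graphs with few pairwise disjoint small cuts.

Proof. A graph without cut edges whose quotients all have, in every family of at least 18 disjoint
vertex sets with odd boundaries, more than `4 m - 6` boundary edges has a nowhere-zero flow with
values in `Z2 x Z2` or can be contracted to the Petersen graph (a minimal counterexample contains no
subgraph with two disjoint spanning trees and has at least 18 vertices of odd degree). From such a
flow one gets three conservative orientations of the even subgraphs on which it avoids a given
value; these are the coordinates of a flow with values in the root system `D3 = A3`, that is, with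
values `e_i - e_j`. In the Petersen case the ten sides have such flows, whose signs can be chosen to
fit a fixed flow of this kind of the Petersen graph with values in `A4`.
-/

set_option autoImplicit false

namespace Pool.Agent.Results.MP_781dd6_co.FewSmallCuts

open Pool.Agent.X42.FewOCDC

open scoped Classical in
/-- Let `G` be a finite simple graph without cut edges such that one of the following conditions
holds (`FewSmallCutsG`). (1) There are no seventeen pairwise disjoint vertex sets with 3, 5, 7 or 9
boundary edges each. (2) For some `d ≥ 10` all degrees are at least `d` and there are fewer than
`17 (d + 1)` vertices. (3) For all `m ≥ 18` pairwise disjoint vertex sets with odd numbers of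
boundary edges these numbers have a sum of more than `4 m - 6`. Then there are five families of
directed cycles such that no family traverses an edge more than once in total and every edge is
traversed exactly once in each direction. -/
theorem result :
    ∀ (V : Type) [Fintype V] (G : SimpleGraph V),
      (∀ u v : V, G.Adj u v → (G.deleteEdges {s(u, v)}).Reachable u v) →
      FewSmallCutsG G →
      ∃ C : Fin 5 → List (Σ v : V, G.Walk v v), (∀ i, ∀ c ∈ C i, c.2.IsCycle) ∧
        (∀ i u v, ((C i).map (fun c =>
            (c.2.darts.filter (fun d => decide (d.toProd = (u, v)))).length)).sum +
          ((C i).map (fun c =>
            (c.2.darts.filter (fun d => decide (d.toProd = (v, u)))).length)).sum ≤ 1) ∧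
        ∀ u v, G.Adj u v → ∑ i, ((C i).map (fun c =>
          (c.2.darts.filter (fun d => decide (d.toProd = (u, v)))).length)).sum = 1 := by
  intro V _ G h hF
  exact final G h hF

end Pool.Agent.Results.MP_781dd6_co.FewSmallCuts
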