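import Pool.Agent.X186.IC.OCDC

/-!
Orientable five cycle double covers of bridgeless graphs with few independent small cuts.

Proof. A graph without cut edges and without `a + 1` pairwise disjoint and pairwise non-adjacent
vertex sets with small odd boundaries has a nowhere-zero flow with values in `Z2 x Z2` or can be
contracted to the Petersen graph (a minimal counterexample has at least 18 vertices of odd degree,
`k` of its vertices span at most `2 k - 3` edges, and it has no triangles). From such a flow one
gets three conservative orientations of the even subgraphs on which it avoids a given value; these
are the coordinates of a flow with values in the root system `D3 = A3`, that is, with values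
`e_i - e_j`. In the Petersen case the ten sides have such flows, whose signs can be chosen to fit a
fixed flow of this kind of the Petersen graph with values in `A4`.
-/

set_option autoImplicit false

namespace Pool.Agent.Results.MP_781dd6_co.IndependentSmallCuts

open Pool.Agent.X186.IC

open scoped Classical in
/-- Let `G` be a finite simple graph without cut edges. Suppose that for some vertex set `U` and
some `a ≥ 3`, `c ≥ 1` with `4 a + |U| + ⌊6 / c⌋ ≤ 21` there are no `a + 1` pairwise disjoint and
pairwise non-adjacent vertex sets, all of them disjoint from `U`, each with an odd number, at most
`2 c + 1`, of boundary edges (`IndependentSmallCutsG`). Then there are five families of directed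
cycles such that no family traverses an edge more than once in total and every edge is traversed
exactly once in each direction. -/
theorem result :
    ∀ (V : Type) [Fintype V] (G : SimpleGraph V),
      (∀ u v : V, G.Adj u v → (G.deleteEdges {s(u, v)}).Reachable u v) →
      IndependentSmallCutsG G →
      ∃ C : Fin 5 → List (Σ v : V, G.Walk v v), (∀ i, ∀ c ∈ C i, c.2.IsCycle) ∧
        (∀ i u v, ((C i).map (fun c =>
            (c.2.darts.filter (fun d => decide (d.toProd = (u, v)))).length)).sum +
          ((C i).map (fun c =>
            (c.2.darts.filter (fun d => decide (d.toProd = (v, u)))).length)).sum ≤ 1) ∧
        ∀ u v, G.Adj u v → ∑ i, ((C i).map (fun c =>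
          (c.2.darts.filter (fun d => decide (d.toProd = (u, v)))).length)).sum = 1 := by
  intro V _ G h hF
  exact final G h hF

end Pool.Agent.Results.MP_781dd6_co.IndependentSmallCuts
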