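import Pool.Agent.X82.OC5
import Pool.Agent.Y425.OW6.Fin

/-!
Orientable five cycle double covers: a class of multigraphs given by base graphs and operations.

The base graphs are the graphs with a nowhere-zero 4-flow (unions of two even subgraphs) and the
graphs without cut edges of carving width at most five or of cutwidth at most six. The operations
are the identification of vertices, edge-disjoint unions, and sums along cuts with at most three
edges.

Proof. An orientable double cover with five classes is a flow with values `e_i - e_j`. Three
Eulerian orientations of the three even subgraphs of a nowhere-zero flow with values in the group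
with four elements give a root of the system `D₃` on each edge, hence a root of the system `A₃`. The
permutations of the five classes and the reversal of all cycles act transitively on the roots and
on the ordered triples of roots with sum zero; hence covers of the two sides of a cut with at most
three edges can be made to agree on the cut.
-/

set_option autoImplicit false

open Finset

namespace Pool.Agent.Results.MP_781dd6_co.OrientedClosure

open Pool.Agent.X82.OC

/-- Every vertex has even degree in `(V, C)`; a loop counts twice. -/
def IsEven {V E : Type} (s t : E → V) (C : Set E) : Prop :=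
  ∀ v, Even ({e | e ∈ C ∧ s e = v}.ncard + {e | e ∈ C ∧ t e = v}.ncard)

/-- The edges with exactly one end in `Z`. -/
def leaving {V E : Type} (s t : E → V) (Z : Set V) : Set E :=
  {e | ¬ (s e ∈ Z ↔ t e ∈ Z)}

/-- The carving width is at most `k`: `T` is a binary tree whose leaves are labelled bijectively by
the vertices, and for every subtree at most `k` edges leave the set of its leaves. -/
def CarvingWidthLE {V E : Type} [Fintype E] (s t : E → V) (k : ℕ) : Prop :=
  ∃ T : Pool.Agent.TH505.OW.Tr V, T.set = Set.univ ∧ T.Nodup ∧ T.Width s t k

/-- The cutwidth is at most `k`: the vertices are placed on a line such that at most `k` edges pass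
over each gap. -/
def CutwidthLE {V E : Type} (s t : E → V) (k : ℕ) : Prop :=
  ∃ f : V → ℕ, Function.Injective f ∧ ∀ n, (leaving s t {v | f v < n}).ncard ≤ k

open Classical in
/-- The ends of the edges after every vertex of `Z` has been replaced by `z`. -/
noncomputable def contract {V E : Type} (Z : Set V) (z : V) (s : E → V) (e : E) : V :=
  if s e ∈ Z then z else s e

open Classical in
/-- The second ends of the edges after the edges in `D` have been replaced by loops. -/
noncomputable def drop {V E : Type} (s t : E → V) (D : Set E) (e : E) : V :=
  if e ∈ D then s e else t e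

/-- The closure of the base graphs under identification of vertices, edge-disjoint unions, and sums
along cuts with at most three edges. The edge set `E` is fixed (a deleted edge is a loop), the vertex
set may change. -/
inductive Closure {E : Type} [Fintype E] : ∀ {V : Type}, (E → V) → (E → V) → Prop
  | flow {V : Type} [Finite V] (s t : E → V) (C₁ C₂ : Set E) : IsEven s t C₁ → IsEven s t C₂ →
      C₁ ∪ C₂ = Set.univ → Closure s t
  | narrow {V : Type} [Finite V] (s t : E → V) : (∀ Z, (leaving s t Z).ncard ≠ 1) →
      (CarvingWidthLE s t 5 ∨ CutwidthLE s t 6) → Closure s t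
  | identify {V W : Type} (s t : E → V) (c : V → W) : Closure s t → Closure (c ∘ s) (c ∘ t)
  | union {V : Type} (s t : E → V) (D : Set E) : Closure s (drop s t D) →
      Closure s (drop s t Dᶜ) → Closure s t
  | sum {V : Type} (s t : E → V) (Z : Set V) (z z' : V) : z ∈ Z → z' ∉ Z →
      (leaving s t Z).ncard ≤ 3 → Closure (contract Z z s) (contract Z z t) →
      Closure (contract Zᶜ z' s) (contract Zᶜ z' t) → Closure s t

theorem leaving_card {V E : Type} [Fintype E] (s t : E → V) (Z : Set V) :
    (leaving s t Z).ncard = (Pool.Agent.TH505.OW.cut s t Z).card := by
  classical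
  rw [← Set.ncard_coe_finset]
  congr 1
  ext e
  rw [mem_coe, Pool.Agent.TH505.OW.mem_cut]
  rfl

theorem og_narrow {V E : Type} [Fintype E] [Finite V] {s t : E → V}
    (h : ∀ Z, (leaving s t Z).ncard ≠ 1) (hw : CarvingWidthLE s t 5 ∨ CutwidthLE s t 6) :
    OG s t := by
  classical
  have := Fintype.ofFinite V
  rcases hw with ⟨T, h1, h2, h3⟩ | ⟨f, h1, h2⟩
  · exact Pool.Agent.TH505.OW.main_good V E s t (fun Z => by rw [← leaving_card]; exact h Z) T h1
      h2 h3
  · refine Pool.Agent.Y425.OW6.main_good V E s t (fun Z hZ => h Z ?_) ⟨f, h1, fun n => ?_⟩
    · rw [← hZ, ← Set.ncard_coe_finset]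
      congr 1
      ext e
      rw [mem_coe, Pool.Agent.Y425.CW.mem_ct]
      rfl
    · refine le_trans (le_of_eq ?_) (h2 n)
      rw [← Set.ncard_coe_finset]
      congr 1
      ext e
      rw [mem_coe, Pool.Agent.Y425.CW.mem_ct]
      rfl

theorem og_closure {V E : Type} [Fintype E] {s t : E → V} (h : Closure s t) : OG s t := by
  classical
  induction h with
  | flow s t C₁ C₂ h1 h2 h =>
    refine og_flow s t C₁ C₂ (fun v => ?_) (fun v => ?_) h
    · have h3 := h1 v
      rw [Set.ncard_eq_toFinset_card', Set.ncard_eq_toFinset_card'] at h3
      convert h3 using 3 <;> ext e <;> simp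
    · have h3 := h2 v
      rw [Set.ncard_eq_toFinset_card', Set.ncard_eq_toFinset_card'] at h3
      convert h3 using 3 <;> ext e <;> simp
  | narrow s t h hw => exact og_narrow h hw
  | identify s t c _ ih => exact og_map c ih
  | union s t D _ _ ih1 ih2 =>
    refine og_union D ?_ ?_
    · convert ih1 using 1
      funext e
      unfold drop
      by_cases h : e ∈ D <;> simp [h]
    · convert ih2 using 1
      funext e
      unfold drop
      by_cases h : e ∈ D <;> simp [h]
  | sum s t Z z z' hz hz' h3 _ _ ih1 ih2 =>
    refine og_sum Z hz hz' ?_ ?_ ?_
    · refine le_trans (le_of_eq ?_) h3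
      rw [← Set.ncard_coe_finset]
      congr 1
      ext e
      simp [leaving]
    · convert ih1 using 1 <;> funext e <;> unfold contract
      · by_cases h : s e ∈ Z <;> simp [h]
      · by_cases h : t e ∈ Z <;> simp [h]
    · convert ih2 using 1 <;> funext e <;> unfold contract
      · by_cases h : s e ∈ Z <;> simp [h]
      · by_cases h : t e ∈ Z <;> simp [h]

open scoped Classical in
/-- Let `G` be a finite simple graph such that for some maps `s t` giving the two ends of the edges
the graph is in the class `Closure`. Then there are five families of directed cycles such that no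
family traverses an edge more than once in total and every edge is traversed exactly once in each
direction. -/
theorem result (V : Type) [Fintype V] (G : SimpleGraph V) (s t : G.edgeSet → V)
    (hst : ∀ e, s(s e, t e) = e.1) (h : Closure s t) :
    ∃ C : Fin 5 → List (Σ v : V, G.Walk v v), (∀ i, ∀ c ∈ C i, c.2.IsCycle) ∧
      (∀ i u v, ((C i).map (fun c =>
          (c.2.darts.filter (fun d => decide (d.toProd = (u, v)))).length)).sum +
        ((C i).map (fun c =>
          (c.2.darts.filter (fun d => decide (d.toProd = (v, u)))).length)).sum ≤ 1) ∧
      ∀ u v, G.Adj u v → ∑ i, ((C i).map (fun c =>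
        (c.2.darts.filter (fun d => decide (d.toProd = (u, v)))).length)).sum = 1 :=
  cycles_of_ends G s t hst (og_closure h)

end Pool.Agent.Results.MP_781dd6_co.OrientedClosure
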